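import Pool.Agent.MP_5c28a4_al.H89S.Spec
import Pool.Agent.MP_5c28a4_al.H65.Main

/-! Identities of the abelian normal sections: Fox derivatives and the embedding of
Kaloujnine and Krasner. -/

set_option autoImplicit false

namespace Pool.Agent.MP_5c28a4_al.H89S

namespace GoodA

section ev
variable {X N A : Type} [Group N] [AddCommGroup A]

/-- evaluation of an element of the group ring -/
noncomputable def ev (ρ : Representation ℤ N A) (φ : X → N) (u : X →₀ ℤ) : A →ₗ[ℤ] A :=
  u.sum fun w c => c • ρ (φ w)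

variable (ρ : Representation ℤ N A)

lemma ev_zero (φ : X → N) : ev ρ φ 0 = 0 := Finsupp.sum_zero_index

lemma ev_add (φ : X → N) (u v : X →₀ ℤ) : ev ρ φ (u + v) = ev ρ φ u + ev ρ φ v :=
  Finsupp.sum_add_index' (fun _ => zero_smul _ _) fun _ _ _ => add_smul _ _ _

lemma ev_single (φ : X → N) (w : X) (c : ℤ) : ev ρ φ (Finsupp.single w c) = c • ρ (φ w) :=
  Finsupp.sum_single_index (zero_smul _ _)

lemma ev_mapDomain {Y : Type} (ψ : Y → X) (φ : X → N) (u : Y →₀ ℤ) :
    ev ρ φ (u.mapDomain ψ) = ev ρ (φ ∘ ψ) u :=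
  Finsupp.sum_mapDomain_index (fun _ => zero_smul _ _) fun _ _ _ => add_smul _ _ _

lemma ev_mul (φ : X → N) (g : N) (u : X →₀ ℤ) :
    ev ρ (fun w => g * φ w) u = ρ g * ev ρ φ u := by
  simp only [ev, Finsupp.sum, Finset.mul_sum, map_mul, mul_smul_comm]

end ev

/-- Fox derivatives -/
lemma fox (w : FF) : ∃ u : ℕ →₀ (FF →₀ ℤ), ∀ (N A : Type) [Group N] [AddCommGroup A]
    (ρ : Representation ℤ N A) (φ : FF →* N) (D : FF → A),
    (∀ a b, D (a * b) = D a + ρ (φ a) (D b)) →
      D w = u.sum fun i x => ev ρ φ x (D (FreeGroup.of i)) := by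
  have one : ∀ (N A : Type) [Group N] [AddCommGroup A] (ρ : Representation ℤ N A) (φ : FF →* N)
      (D : FF → A), (∀ a b, D (a * b) = D a + ρ (φ a) (D b)) → D 1 = 0 := by
    intro N A _ _ ρ φ D h
    simpa using h 1 1
  induction w using FreeGroup.induction_on with
  | C1 => exact ⟨0, fun N A _ _ ρ φ D h => by rw [one N A ρ φ D h, Finsupp.sum_zero_index]⟩
  | of i =>
    refine ⟨Finsupp.single i (Finsupp.single 1 1), fun N A _ _ ρ φ D h => ?_⟩
    rw [Finsupp.sum_single_index (by simp [ev_zero]), ev_single]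
    simp
  | inv_of i _ =>
    refine ⟨Finsupp.single i (Finsupp.single (FreeGroup.of i)⁻¹ (-1)), fun N A _ _ ρ φ D h => ?_⟩
    rw [Finsupp.sum_single_index (by simp [ev_zero]), ev_single]
    have := h (FreeGroup.of i)⁻¹ (FreeGroup.of i)
    rw [inv_mul_cancel, one N A ρ φ D h] at this
    rw [neg_smul, one_smul, LinearMap.neg_apply]
    exact eq_neg_of_add_eq_zero_left this.symm
  | mul a b ha hb =>
    obtain ⟨u, hu⟩ := ha
    obtain ⟨v, hv⟩ := hb
    refine ⟨u + v.mapRange (Finsupp.mapDomain (a * ·)) Finsupp.mapDomain_zero,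
      fun N A _ _ ρ φ D h => ?_⟩
    rw [Finsupp.sum_add_index' (by simp [ev_zero]) (by simp [ev_add]),
      Finsupp.sum_mapRange_index (by simp [ev_zero]), h, ← hu N A ρ φ D h, hv N A ρ φ D h,
      Finsupp.sum, Finsupp.sum, map_sum]
    congr 1
    refine Finset.sum_congr rfl fun i _ => ?_
    rw [ev_mapDomain, show (φ ∘ (a * ·)) = fun w => φ a * φ w from funext fun w => map_mul φ a w,
      ev_mul]
    rfl

/-- the embedding of Kaloujnine and Krasner -/
lemma kk {G : Type} [Group G] (N : Subgroup G) [hN : N.Normal] :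
    ∃ κ : G →* RegularWreathProduct N (G ⧸ N), Function.Injective κ ∧
      ∀ g, (κ g).right = (g : G ⧸ N) := by
  have mem : ∀ (g : G) (x : G ⧸ N), x.out⁻¹ * (g * ((g : G ⧸ N)⁻¹ * x).out) ∈ N := fun g x => by
    rw [← QuotientGroup.eq]
    simp
  let κ : G →* RegularWreathProduct N (G ⧸ N) := MonoidHom.mk'
    (fun g => ⟨fun x => ⟨_, mem g x⟩, g⟩) fun a b => by
      ext x
      · simp [mul_assoc]
      · simp
  refine ⟨κ, (injective_iff_map_eq_one κ).2 fun g h => ?_, fun _ => rfl⟩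
  have h1 : (g : G ⧸ N) = 1 := congrArg RegularWreathProduct.right h
  have h2 : (1 : G ⧸ N).out⁻¹ * (g * ((g : G ⧸ N)⁻¹ * 1).out) = 1 :=
    congrArg Subtype.val (congrFun (congrArg RegularWreathProduct.left h) 1)
  rw [h1, inv_one, one_mul, inv_mul_eq_one] at h2
  simpa using h2

/-- from a quotient to a split group -/
lemma good_of {p : ℕ} {T : Type} [Group T] (N : Subgroup T) [hN : N.Normal] (h1 : Cm N N)
    (h2 : ∀ x ∈ N, x ^ p = 1) (h3 : ∀ x y : T, x * y * x⁻¹ * y⁻¹ ∈ N) (u : FF →₀ ℤ)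
    (φ : FF →* T) (t : T) (h : ¬ (p : ℤ) ∣ Finsupp.mapDomain φ u t) : Good p u := by
  obtain ⟨κ, k1, -⟩ := kk N
  have pw : ∀ (x : RegularWreathProduct N (T ⧸ N)) (n : ℕ), x.right = 1 →
      (x ^ n).left = x.left ^ n ∧ (x ^ n).right = 1 := fun x n hx => by
    induction n with
    | zero => simp
    | succ n ih => simp [pow_succ, ih.1, ih.2, hx]
  refine ⟨RegularWreathProduct N (T ⧸ N), inferInstance, RegularWreathProduct.rightHom.ker,
    RegularWreathProduct.inl.range, inferInstance, fun a ha b hb => ?_, fun x hx => ?_, ?_, ?_,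
    κ.comp φ, κ t, ?_⟩
  · have ha' : a.right = 1 := ha
    have hb' : b.right = 1 := hb
    ext x
    · simpa [ha', hb'] using h1 _ (a.left x).2 _ (b.left x).2
    · simp [ha', hb']
  · obtain ⟨e1, e2⟩ := pw x p hx
    ext y
    · rw [e1]
      simpa using h2 _ (x.left y).2
    · simp [e2]
  · rintro _ ⟨a, rfl⟩ _ ⟨b, rfl⟩
    rw [← map_mul, ← map_mul]
    congr 1
    obtain ⟨a, rfl⟩ := QuotientGroup.mk_surjective a
    obtain ⟨b, rfl⟩ := QuotientGroup.mk_surjective b
    rw [← QuotientGroup.mk_mul, ← QuotientGroup.mk_mul, QuotientGroup.eq]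
    simpa [mul_assoc] using h3 b⁻¹ a⁻¹
  · rw [eq_top_iff]
    intro x _
    rw [show x = x * (RegularWreathProduct.inl x.right)⁻¹ * RegularWreathProduct.inl x.right by
      group]
    exact Subgroup.mul_mem_sup (by simp [MonoidHom.mem_ker]) ⟨_, rfl⟩
  · rw [MonoidHom.coe_comp, Finsupp.mapDomain_comp, Finsupp.mapDomain_apply k1]
    exact h

/-- the derivatives of a law are identities of the sections -/
lemma sat_fox {v : FF} {u : ℕ →₀ (FF →₀ ℤ)} (hu : ∀ (N A : Type) [Group N] [AddCommGroup A]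
    (ρ : Representation ℤ N A) (φ : FF →* N) (D : FF → A),
    (∀ a b, D (a * b) = D a + ρ (φ a) (D b)) →
      D v = u.sum fun i x => ev ρ φ x (D (FreeGroup.of i))) {G A : Type} [Group G]
    [AddCommGroup A] (hv : ∀ f : FF →* G, f v = 1) {ρ : Representation ℤ G A} (h : Sec ρ)
    (i : ℕ) : Sat (u i) ρ := by
  obtain ⟨H, f, hH, f1, f2, f3⟩ := h
  intro φ
  ext a
  obtain ⟨x, hx, rfl⟩ := f2 a
  have f0 : f 1 = 0 := by simpa using f1 1 H.one_mem 1 H.one_mem
  let ψ : FF →* G := FreeGroup.lift fun j => (if j = i then x else 1) * φ (FreeGroup.of j)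
  have e : (QuotientGroup.mk' H).comp ψ = (QuotientGroup.mk' H).comp φ := by
    ext j
    by_cases k : j = i
    · simp [ψ, k, (QuotientGroup.eq_one_iff x).2 hx]
    · simp [ψ, k]
  have mem : ∀ w, ψ w * (φ w)⁻¹ ∈ H := fun w => by
    rw [← QuotientGroup.eq_one_iff, QuotientGroup.mk_mul, QuotientGroup.mk_inv, mul_inv_eq_one]
    exact DFunLike.congr_fun e w
  have := hu G A ρ φ (fun w => f (ψ w * (φ w)⁻¹)) fun a b => by
    rw [← f3 _ _ (mem b), ← f1 _ (mem a) _ (hH.conj_mem _ (mem b) _)]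
    congr 1
    simp only [map_mul]
    group
  simp only [hv, inv_one, mul_one, f0] at this
  rw [Finsupp.sum, Finset.sum_eq_single i (fun j _ k => by simp [ψ, k, f0])
    (fun k => by rw [Finsupp.notMem_support_iff.1 k, ev_zero]; rfl)] at this
  simpa [ψ, ev] using this.symm

/-- a word that is not trivial in an elementary abelian normal subgroup -/
lemma exists_fox {p : ℕ} {v : FF} {u : ℕ →₀ (FF →₀ ℤ)} (hu : ∀ (N A : Type) [Group N]
    [AddCommGroup A] (ρ : Representation ℤ N A) (φ : FF →* N) (D : FF → A),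
    (∀ a b, D (a * b) = D a + ρ (φ a) (D b)) →
      D v = u.sum fun i x => ev ρ φ x (D (FreeGroup.of i))) {G : Type} [Group G]
    (M : Subgroup G) [M.Normal] (h1 : Cm M M) (h2 : ∀ x ∈ M, x ^ p = 1) (f : FF →* G)
    (hm : f v ∈ M) (hn : f v ≠ 1) :
    ∃ i t, ¬ (p : ℤ) ∣ Finsupp.mapDomain ((QuotientGroup.mk' M).comp f) (u i) t := by
  by_contra! h
  obtain ⟨κ, k1, k2⟩ := kk M
  let : CommGroup M :=
    { (inferInstance : Group M) with mul_comm := fun a b => Subtype.ext (h1 _ a.2 _ b.2) }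
  let ρ : Representation ℤ (G ⧸ M) (G ⧸ M → Additive M) :=
    { toFun := fun t => LinearMap.funLeft ℤ (Additive M) fun x => t⁻¹ * x
      map_one' := by ext a x; simp
      map_mul' := fun s t => by ext a x; simp [mul_assoc] }
  have kill : ∀ (i : ℕ) (a : G ⧸ M → Additive M),
      ev ρ ((QuotientGroup.mk' M).comp f) (u i) a = 0 := fun i a => by
    rw [show ev ρ ((QuotientGroup.mk' M).comp f) (u i) = ev ρ id
      ((u i).mapDomain ((QuotientGroup.mk' M).comp f)) from (ev_mapDomain ρ _ id _).symm, ev,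
      Finsupp.sum, LinearMap.sum_apply]
    refine Finset.sum_eq_zero fun t _ => ?_
    obtain ⟨c, hc⟩ := h i t
    rw [hc, mul_comm, mul_smul, LinearMap.smul_apply, LinearMap.smul_apply]
    have : ∀ b : G ⧸ M → Additive M, (p : ℤ) • b = 0 := fun b => by
      funext x
      rw [Pi.smul_apply, natCast_zsmul]
      exact Additive.toMul.injective (Subtype.ext (by simpa using h2 _ (b x).toMul.2))
    rw [this, smul_zero]
  have := hu (G ⧸ M) (G ⧸ M → Additive M) ρ ((QuotientGroup.mk' M).comp f)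
    (fun w x => Additive.ofMul ((κ (f w)).left x)) fun a b => by
      funext x
      rw [map_mul, map_mul, RegularWreathProduct.mul_left, k2]
      rfl
  simp only [kill, Finsupp.sum, Finset.sum_const_zero] at this
  refine hn (k1 ?_)
  rw [map_one]
  ext x
  · exact congrArg Subtype.val (Additive.ofMul.injective (congrFun this x))
  · rw [k2, (QuotientGroup.eq_one_iff _).2 hm]; rfl

end GoodA

open GoodA

theorem good : SGood := by
  intro S hS
  have key : ∀ p : ℕ, ∃ u : FF →₀ ℤ, p.Prime → Good p u ∧ ∀ (G : Type) [Group G], InV S G →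
      ∀ (A : Type) [AddCommGroup A] (ρ : Representation ℤ G A), Sec ρ → Sat u ρ := fun p => by
    by_cases hp : p.Prime
    swap
    · exact ⟨0, fun h => absurd h hp⟩
    obtain ⟨r0, hr⟩ := H65.not_noIndep p hp
    obtain ⟨r, r1, r2⟩ := Nat.exists_infinite_primes r0
    have ns : ¬ H65.AAA p (p * r) ⊆ vr S := fun sub => hr r r2 r1 fun ⟨S', s1, s2⟩ =>
      hS ⟨S', s1, fun s hs k => s2 s hs fun G hG => k G (sub hG)⟩
    obtain ⟨G, ⟨M, N, hM, hN, -, m1, m2, n1, n2, g1, -⟩, hG⟩ := Set.not_subset.1 ns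
    simp only [vr, Set.mem_ofPred_eq, H89.Sat, not_forall] at hG
    obtain ⟨v, hv, f, hf⟩ := hG
    have gd : ∀ (u : FF →₀ ℤ) (t : G ⧸ M),
        ¬ (p : ℤ) ∣ Finsupp.mapDomain ((QuotientGroup.mk' M).comp f) u t → Good p u := by
      intro u t
      have : (N.map (QuotientGroup.mk' M)).Normal := hN.map _ (QuotientGroup.mk'_surjective M)
      refine good_of (N.map (QuotientGroup.mk' M)) ?_ ?_ ?_ u _ t
      · rintro _ ⟨a, ha, rfl⟩ _ ⟨b, hb, rfl⟩
        rw [← mul_inv_eq_one, ← map_mul, ← map_mul, ← map_inv, ← map_mul]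
        exact (QuotientGroup.eq_one_iff _).2 (by simpa [mul_assoc] using n1 a ha b hb)
      · rintro _ ⟨a, ha, rfl⟩
        rw [← map_pow]
        exact (QuotientGroup.eq_one_iff _).2 (n2 a ha)
      · intro x y
        obtain ⟨x, rfl⟩ := QuotientGroup.mk_surjective x
        obtain ⟨y, rfl⟩ := QuotientGroup.mk_surjective y
        exact ⟨_, g1 x y, by simp⟩
    by_cases hm : f v ∈ M
    · obtain ⟨u, hu⟩ := fox v
      obtain ⟨i, t, ht⟩ := exists_fox hu M m1 m2 f hm hf
      exact ⟨u i, fun _ => ⟨gd _ t ht, fun G' _ h' A _ ρ hρ => sat_fox hu (h' v hv) hρ i⟩⟩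
    · refine ⟨Finsupp.single v 1 + Finsupp.single 1 (-1), fun _ => ⟨gd _ 1 ?_,
        fun G' _ h' A _ ρ _ φ => ?_⟩⟩
      · have : ((QuotientGroup.mk' M).comp f) v ≠ 1 := fun e =>
          hm ((QuotientGroup.eq_one_iff _).1 e)
        rw [Finsupp.mapDomain_add, Finsupp.mapDomain_single, Finsupp.mapDomain_single,
          map_one ((QuotientGroup.mk' M).comp f), Finsupp.add_apply, Finsupp.single_eq_of_ne this.symm, Finsupp.single_eq_same, zero_add,
          dvd_neg]
        exact (Nat.prime_iff_prime_int.1 hp).not_dvd_one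
      · change ev ρ φ _ = 0
        rw [ev_add, ev_single, ev_single, h' v hv φ, map_one φ]
        simp
  choose u hu using key
  exact ⟨u, fun p hp => (hu p hp).1, fun G _ hG p hp => (hu p hp).2 G hG⟩

end Pool.Agent.MP_5c28a4_al.H89S
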