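import Pool.Agent.MP_5c28a4_al.H89S.Base8

/-! The last stage of section S8: nilpotent kernel. -/

set_option autoImplicit false

namespace Pool.Agent.MP_5c28a4_al.H89S

open scoped commutatorElement

namespace NilA

/-- the statement that is proved by induction -/
def A (S : Set FF) {k : ℕ} (w : FreeGroup (Fin k)) (n c j d : ℕ) : Prop :=
  ∀ (G : Type) [Group G] (g : Fin k → G) (K : Subgroup G), InV S G → Pt w g K →
    (∀ x ∈ K, x ^ n = 1) → K.lowerCentralSeries c = ⊥ → mu K j d = ⊥ → Wit S w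

variable {S : Set FF} {k : ℕ} {w : FreeGroup (Fin k)} {n c j d : ℕ}

lemma lcs_mu {G : Type} [Group G] (K : Subgroup G) (j : ℕ) : K.lowerCentralSeries j ≤ mu K j 1 :=
  fun x hx => by simpa using pow_mem_mu K j 1 hx

lemma zero (hV : BVn) : A S w n c 0 1 := by
  intro G _ g K h1 h2 _ _ h5
  have hK : K = ⊥ := le_bot_iff.1 (h5 ▸ lcs_mu K 0)
  obtain ⟨D, d1, d2, d3⟩ := hV.rf G (Group.fg_iff.2 ⟨_, h2.gen, Set.finite_range g⟩) K h2.covn _
    (by rw [hK]; exact h2.ne)
  refine ⟨G ⧸ D, inferInstance, inferInstance, h1.of_surj _ (QuotientGroup.mk'_surjective D),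
    fun i => QuotientGroup.mk' D (g i), fun e => d3 ?_⟩
  have : FreeGroup.lift (fun i => QuotientGroup.mk' D (g i)) =
      (QuotientGroup.mk' D).comp (FreeGroup.lift g) := FreeGroup.ext_hom _ _ fun i => by simp
  rw [this] at e
  exact (QuotientGroup.eq_one_iff _).1 e

lemma succ (h : A S w n c j n) : A S w n c (j + 1) 1 := by
  intro G _ g K h1 h2 h3 h4 h5
  refine h G g K h1 h2 h3 h4 (le_bot_iff.1 (sup_le ((Subgroup.closure_le _).2 ?_) ?_))
  · rintro _ ⟨y, hy, rfl⟩
    exact h3 y (lcs_le K j hy)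
  · exact h5 ▸ lcs_mu K (j + 1)

lemma new (hV : BVn) (h : A S w n c j d) (N R : Subgroup (FreeGroup (Fin k))) [N.Normal]
    (ha : ∀ v ∈ S, ∀ ψ : FF →* FreeGroup (Fin k), ψ v ∈ N) (hb : w ∉ N) (hc : CoVN R)
    (h1 : ∀ f ∈ R, f ^ n ∈ N) (h2 : R.lowerCentralSeries c ≤ N) (h3 : mu R j d ≤ N) :
    Wit S w := by
  have sj := QuotientGroup.mk'_surjective N
  have e : FreeGroup.lift (fun i => QuotientGroup.mk' N (FreeGroup.of i)) = QuotientGroup.mk' N :=
    FreeGroup.ext_hom _ _ fun i => by simp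
  refine h (FreeGroup (Fin k) ⧸ N) (fun i => QuotientGroup.mk' N (FreeGroup.of i))
    (R.map (QuotientGroup.mk' N)) (fun v hv f => ?_) ⟨?_, ?_, hV.map _ _ _ R sj hc⟩ ?_ ?_ ?_
  · obtain ⟨ψ, rfl⟩ := exists_lift _ sj f
    exact (QuotientGroup.eq_one_iff _).2 (ha v hv ψ)
  · rw [← FreeGroup.range_lift_eq_closure, e, MonoidHom.range_eq_top.2 sj]
  · rw [e]
    exact fun z => hb ((QuotientGroup.eq_one_iff _).1 z)
  · rintro _ ⟨f, hf, rfl⟩
    rw [← map_pow]
    exact (QuotientGroup.eq_one_iff _).2 (h1 f hf)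
  · rwa [← Subgroup.map_lowerCentralSeries, Subgroup.map_eq_bot_iff, QuotientGroup.ker_mk']
  · rwa [← mu_map, Subgroup.map_eq_bot_iff, QuotientGroup.ker_mk']

section aux
variable {G F : Type} [Group G] [Group F]

lemma lcs_comap {φ : F →* G} {R : Subgroup F} {K : Subgroup G} (h : R ≤ K.comap φ) (j : ℕ) :
    R.lowerCentralSeries j ≤ (K.lowerCentralSeries j).comap φ := by
  rw [← Subgroup.map_le_iff_le_comap] at h ⊢
  rw [Subgroup.map_lowerCentralSeries]
  exact Subgroup.lowerCentralSeries_mono j h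

lemma mu_comap {φ : F →* G} {R : Subgroup F} {K : Subgroup G} (h : R ≤ K.comap φ) (j d : ℕ) :
    mu R j d ≤ (mu K j d).comap φ := by
  rw [← Subgroup.map_le_iff_le_comap] at h ⊢
  rw [mu_map]
  exact mu_mono h j d

lemma exists_hom {r : ℕ} (hr : r.Prime) {V : Type} [AddCommGroup V] (h : ∀ x : V, r • x = 0)
    {v : V} (hv : v ≠ 0) : ∃ φ : V →+ ZMod r, φ v ≠ 0 := by
  have : Fact r.Prime := ⟨hr⟩
  have key : ∀ [Module (ZMod r) V], ∃ φ : V →+ ZMod r, φ v ≠ 0 := by
    intro _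
    obtain ⟨φ, hφ⟩ := not_forall.1 (mt (Module.forall_dual_apply_eq_zero_iff (ZMod r) v).1 hv)
    exact ⟨φ.toAddMonoidHom, hφ⟩
  exact @key (AddCommGroup.zmodModule h)

lemma exists_zeta {r : ℕ} (hr : r.Prime) (Z : Subgroup G) (hc : Cm Z Z) (he : ∀ z ∈ Z, z ^ r = 1)
    {z : G} (h1 : z ∈ Z) (h2 : z ≠ 1) : ∃ ζ : G → ZMod r, AddOn Z ζ ∧ ζ z ≠ 0 := by
  classical
  let _ : CommGroup Z :=
    { (inferInstance : Group Z) with mul_comm := fun a b => Subtype.ext (hc _ a.2 _ b.2) }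
  obtain ⟨φ, hφ⟩ := exists_hom hr (V := Additive Z) (fun x =>
    Additive.toMul.injective (Subtype.ext (by simpa using he _ x.toMul.2)))
    (v := Additive.ofMul ⟨z, h1⟩) fun e => h2 (congrArg (fun x : Additive Z => x.toMul.1) e)
  refine ⟨fun x => if h : x ∈ Z then φ (Additive.ofMul ⟨x, h⟩) else 0, fun x hx y hy => ?_, ?_⟩
  · simp only [dif_pos hx, dif_pos hy, dif_pos (Z.mul_mem hx hy), ← map_add]
    rfl
  · simpa only [dif_pos h1] using hφ

/-- the kernel of an additive function -/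
def kerOn {B : Type} [AddCommGroup B] (Z : Subgroup G) (ζ : G → B) (h : AddOn Z ζ) :
    Subgroup G where
  carrier := {z | z ∈ Z ∧ ζ z = 0}
  one_mem' := ⟨Z.one_mem, h.one⟩
  mul_mem' := fun {a b} ha hb => ⟨Z.mul_mem ha.1 hb.1, by rw [h a ha.1 b hb.1, ha.2, hb.2, add_zero]⟩
  inv_mem' := fun {a} ha => ⟨Z.inv_mem ha.1, by
    have := h a ha.1 _ (Z.inv_mem ha.1)
    rwa [mul_inv_cancel, h.one, ha.2, zero_add, eq_comm] at this⟩

/-- the words whose values lie eventually in `C` -/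
def evS (φ : ℕ → F →* G) (C : Subgroup G) : Subgroup F where
  carrier := {f | ∀ᶠ t in Filter.atTop, φ t f ∈ C}
  one_mem' := Filter.Eventually.of_forall fun t => by rw [map_one]; exact C.one_mem
  mul_mem' := fun ha hb => (Filter.Eventually.and ha hb).mono fun t h => by
    rw [map_mul]; exact C.mul_mem h.1 h.2
  inv_mem' := fun ha => Filter.Eventually.mono ha fun t h => by rw [map_inv]; exact C.inv_mem h

lemma evS_normal (φ : ℕ → F →* G) : (evS φ ⊥).Normal := ⟨fun f hf g =>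
  Filter.Eventually.mono hf fun t h => by
    rw [Subgroup.mem_bot] at h ⊢
    simp [h]⟩

lemma le_evS {φ : ℕ → F →* G} {C : Subgroup G} {R : Subgroup F} (h : ∀ t, R ≤ C.comap (φ t)) :
    R ≤ evS φ C := fun _ hf => Filter.Eventually.of_forall fun t => h t hf

/-- the cube property -/
lemma cube (hB : SBase) (hn : 0 < n) (g : Fin k → G) (K C : Subgroup G) [hK : K.Normal]
    (h3 : ∀ x ∈ K, x ^ n = 1) (h4 : K.lowerCentralSeries c = ⊥) (hC : Cm C K) (hCK : C ≤ K)
    (h0 : FreeGroup.lift g w ∈ K) (h1 : FreeGroup.lift g w ∉ C) :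
    ∃ N, Cube N {b | All K b} {y | All K y ∧ FreeGroup.lift (y * g) w ∉ C} := by
  classical
  have : (C.subgroupOf K).Normal := ⟨fun x hx y => by
    rw [Subgroup.mem_subgroupOf] at hx ⊢
    push_cast
    rwa [← hC _ hx _ y.2, mul_inv_cancel_right]⟩
  have : Finite {f : FreeGroup (Fin k) // f.norm ≤ w.norm} := finite_norm_le w.norm
  let _ := Fintype.ofFinite ({f : FreeGroup (Fin k) // f.norm ≤ w.norm} × Fin k)
  let π := QuotientGroup.mk' (C.subgroupOf K)
  have sj : Function.Surjective π := QuotientGroup.mk'_surjective _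
  obtain ⟨N, hN⟩ := hB (K ⧸ C.subgroupOf K) ({f : FreeGroup (Fin k) // f.norm ≤ w.norm} × Fin k)
    c n hn (by
      rw [← Subgroup.map_top_of_surjective π sj, ← Subgroup.map_lowerCentralSeries]
      have : (⊤ : Subgroup K).lowerCentralSeries c = ⊥ := by
        rw [← Subgroup.map_eq_bot_iff_of_injective _ K.subtype_injective,
          Subgroup.map_lowerCentralSeries, ← MonoidHom.range_eq_map, K.range_subtype, h4]
      rw [this, Subgroup.map_bot])
    (fun x => by
      obtain ⟨x, rfl⟩ := sj x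
      rw [← map_pow, show x ^ n = 1 from Subtype.ext (h3 _ x.2), map_one])
  let Φ : (Fin k → G) → {f : FreeGroup (Fin k) // f.norm ≤ w.norm} × Fin k →
      K ⧸ C.subgroupOf K := fun b s => if h : b s.2 ∈ K then
    π ⟨FreeGroup.lift g s.1.1 * b s.2 * (FreeGroup.lift g s.1.1)⁻¹, hK.conj_mem _ h _⟩ else 1
  have mul : ∀ J : List (Fin k → G), (∀ b ∈ J, All K b) →
      All K J.prod ∧ Φ J.prod = (J.map Φ).prod := fun J hJ => by
    induction J with
    | nil =>
      refine ⟨fun _ => K.one_mem, funext fun s => ?_⟩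
      simp only [Φ, List.prod_nil, Pi.one_apply, dif_pos K.one_mem, List.map_nil]
      rw [← map_one π]
      congr 1
      ext; simp
    | cons b J ih =>
      obtain ⟨i1, i2⟩ := ih fun x hx => hJ x (List.mem_cons_of_mem _ hx)
      have hb := hJ b List.mem_cons_self
      have a1 : All K (b :: J).prod := fun i => K.mul_mem (hb i) (i1 i)
      refine ⟨a1, ?_⟩
      rw [List.map_cons, List.prod_cons (l := J.map Φ), ← i2]
      funext s
      simp only [Φ, Pi.mul_apply, dif_pos (a1 s.2), dif_pos (hb s.2), dif_pos (i1 s.2), ← map_mul]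
      congr 1
      ext; simp [mul_assoc]
  refine ⟨N, fun l l1 l2 => ?_⟩
  obtain ⟨J', j1, j2, j3⟩ := hN (π ⟨_, h0⟩)
    (fun e => h1 ((QuotientGroup.eq_one_iff (N := C.subgroupOf K) ⟨_, h0⟩).1 e))
    (l.map Φ) (by simpa using l1) fun _ _ => trivial
  obtain ⟨J, s1, rfl⟩ := List.sublist_map_iff.1 j1
  obtain ⟨m1, m2⟩ := mul J fun b hb => l2 b (s1.subset hb)
  refine ⟨J, s1, fun e => j2 (by rw [e]; rfl), m1, fun hw => j3 ?_⟩
  rw [← m2]
  have le : win g w.norm (Set.range J.prod) ≤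
      ((Subgroup.closure (Set.range (Φ J.prod))).comap π).map K.subtype := by
    refine (Subgroup.closure_le _).2 ?_
    rintro _ ⟨f, hf, _, ⟨i, rfl⟩, rfl⟩
    exact ⟨⟨_, hK.conj_mem _ (m1 i) _⟩, Subgroup.subset_closure ⟨(⟨f, hf⟩, i), dif_pos (m1 i)⟩, rfl⟩
  obtain ⟨x, x1, x2⟩ := le (win_mem J.prod g w)
  have e : x = ⟨_, hCK hw⟩ * (⟨_, h0⟩ : K)⁻¹ := Subtype.ext x2
  rw [e, SetLike.mem_coe, Subgroup.mem_comap, map_mul, map_inv,
    show π ⟨_, hCK hw⟩ = 1 from (QuotientGroup.eq_one_iff _).2 hw, one_mul] at x1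
  exact (Subgroup.inv_mem_iff _).1 x1

end aux

lemma step (hV : BVn) (hB : SBase) (hR : SRLG) (hn : 0 < n) {r : ℕ} (hr : r.Prime)
    (h : A S w n c j d) : A S w n c j (d * r) := by
  intro G _ g K h1 h2 h3 h4 h5
  have hK : K.Normal := h2.covn.1
  have l1 : K.lowerCentralSeries (j + 1) = ⊥ := le_bot_iff.1 (h5 ▸ le_sup_right)
  have cen : Cm (K.lowerCentralSeries j) K := fun x hx y hy => by
    have : ⁅x, y⁆ ∈ K.lowerCentralSeries (j + 1) := Subgroup.commutator_mem_commutator hx hy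
    rwa [l1, Subgroup.mem_bot, commutatorElement_eq_one_iff_mul_comm] at this
  have zl := mu_le K j d
  have zk := zl.trans (lcs_le K j)
  have cR : CoVN (K.comap (FreeGroup.lift g)) := hV.comap _ _ _ K h2.covn
  have law : ∀ φ : FreeGroup (Fin k) →* G, ∀ v ∈ S, ∀ ψ : FF →* FreeGroup (Fin k), φ (ψ v) = 1 :=
    fun φ v hv ψ => h1 v hv (φ.comp ψ)
  by_cases c1 : ∃ y, All K y ∧ FreeGroup.lift (y * g) w ∉ mu K j d
  · obtain ⟨y, y1, y2⟩ := c1
    rw [← comap_lift_mod K K le_rfl y1 g] at cR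
    refine new hV h ((mu K j d).comap (FreeGroup.lift (y * g))) _ (fun v hv ψ => ?_) y2 cR
      (fun f hf => ?_) ((lcs_comap le_rfl c).trans (Subgroup.comap_mono (h4 ▸ bot_le)))
      (mu_comap le_rfl j d)
    · rw [Subgroup.mem_comap, law _ v hv]; exact one_mem _
    · rw [Subgroup.mem_comap, map_pow, h3 _ hf]; exact one_mem _
  push Not at c1
  have z0 : FreeGroup.lift g w ∈ mu K j d := by simpa using c1 1 fun _ => K.one_mem
  have zr : ∀ z ∈ mu K j d, z ^ r = 1 := fun z hz => by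
    have e : mu K j d = pw (K.lowerCentralSeries j) d := by rw [mu, l1, sup_bot_eq]
    rw [e] at hz zl zk
    induction hz using Subgroup.closure_induction with
    | mem x hx =>
      obtain ⟨y, hy, rfl⟩ := hx
      rw [← pow_mul, ← Subgroup.mem_bot, ← h5]
      exact pow_mem_mu K j _ hy
    | one => exact one_pow r
    | mul x y hx hy a b => rw [Commute.mul_pow (cen x (zl hx) y (zk hy)), a, b, one_mul]
    | inv x _ a => rw [inv_pow, a, inv_one]
  obtain ⟨ζ, a1, a2⟩ := exists_zeta hr (mu K j d) (fun x hx y hy => cen x (zl hx) y (zk hy)) zr z0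
    h2.ne
  obtain ⟨N, hN⟩ := cube hB hn g K (kerOn _ ζ a1) h3 h4 (fun x hx => cen x (zl hx.1))
    (fun x hx => zk hx.1) (zk z0) fun e => a2 e.2
  obtain ⟨R, y, r1, r2, r3, r4, r5⟩ := hR G (Fin k) g K n r j N (by rw [h2.gen, top_sup_eq])
    h2.covn hn (fun x hx => by rw [h3 x hx]; exact one_mem _) hr Unit (fun _ x => ζ (x ^ d))
    (fun _ x hx y hy => by
      simp only
      rw [Commute.mul_pow (cen x hx y (lcs_le K j hy)), a1 _ (pow_mem_mu K j d hx) _
        (pow_mem_mu K j d hy)])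
    (fun _ x hx => by
      rw [l1, Subgroup.mem_bot] at hx
      simp only [hx, one_pow, a1.one]) _ (fun _ hy => hy.1) hN
  let φ : ℕ → FreeGroup (Fin k) →* G := fun t => FreeGroup.lift (y t * g)
  have rk : ∀ t, R ≤ K.comap (φ t) := fun t => by
    rw [comap_lift_mod K K le_rfl (r4 t).1 g]; exact r2
  have := evS_normal φ
  have le : evS φ ⊥ ⊔ mu R j d ≤ evS φ (kerOn _ ζ a1) := by
    refine sup_le (fun f hf => Filter.Eventually.mono hf fun t => @bot_le _ _ _ (kerOn _ ζ a1) _)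
      (sup_le ((Subgroup.closure_le _).2 ?_) (le_evS fun t => (lcs_comap (rk t) _).trans
        (Subgroup.comap_mono (l1 ▸ bot_le))))
    rintro _ ⟨f, hf, rfl⟩
    refine (r5 f hf ()).mono fun t ht => ?_
    rw [map_pow]
    exact ⟨pow_mem_mu K j d (lcs_comap (rk t) j hf), ht⟩
  refine new hV h (evS φ ⊥ ⊔ mu R j d) R
    (fun v hv ψ => Subgroup.mem_sup_left (Filter.Eventually.of_forall fun t => law _ v hv ψ))
    (fun e => ?_) (hV.fin _ _ R cR r1 r2 r3)
    (fun f hf => Subgroup.mem_sup_left (Filter.Eventually.of_forall fun t => ?_))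
    (le_sup_of_le_left (le_evS fun t => h4 ▸ lcs_comap (rk t) c)) le_sup_right
  · obtain ⟨t, ht⟩ := Filter.Eventually.exists (le e)
    exact (r4 t).2 ht
  · rw [map_pow, h3 _ (rk t hf)]; exact one_mem _

end NilA

open NilA

theorem nil : BVn → SBase → SRLG → SNil := by
  intro hV hB hR S k w G _ g K n c h1 h2 hn h3 h4
  have up : ∀ j, A S w n c j 1 → ∀ m, 0 < m → A S w n c j m := fun j h m => by
    induction m using induction_on_primes with
    | zero => exact fun z => absurd z (lt_irrefl 0)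
    | one => exact fun _ => h
    | prime_mul p a hp ih =>
      intro z
      rw [mul_comm]
      exact step hV hB hR hn hp (ih (Nat.pos_of_mul_pos_left z))
  have all : ∀ j, A S w n c j 1 := fun j => by
    induction j with
    | zero => exact zero hV
    | succ j ih => exact succ (up j ih n hn)
  exact all c G g K h1 h2 h3 h4 (le_bot_iff.1 (h4 ▸ mu_le K c 1))

end Pool.Agent.MP_5c28a4_al.H89S
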